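import Pool.Agent.W170.Z3.Stm

/-!
Project Z3 (helper170): the archimedean comparison `StG1` from `StG1r` and `StG1z`.
(The block lemmas are those of `Pool.Agent.H336R2.HD.G1`.)
-/

set_option autoImplicit false

open Polynomial Pool.Agent.H337R2 Filter Topology

namespace Pool.Agent.W790.Z3

open Pool.Agent.W170.Z3

noncomputable section

lemma pair_le (u u' c Y : ℝ) (hu : 0 < u) (hu' : 0 < u') (hc : u + u' = 2 * c) (hY : 0 ≤ Y) :
    (1 + Y / c ^ 2) ^ 2 ≤ (1 + Y / u ^ 2) * (1 + Y / u' ^ 2) := by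
  have hc0 : 0 < c := by linarith
  have h1 : u * u' ≤ c ^ 2 := by
    have : c = (u + u') / 2 := by linarith
    rw [this]
    nlinarith [sq_nonneg (u - u')]
  have h2 : 0 < u * u' := mul_pos hu hu'
  have h3 : Y / c ^ 2 ≤ Y / (u * u') := div_le_div_of_nonneg_left hY h2 h1
  have h4 : 0 ≤ Y / c ^ 2 := by positivity
  calc (1 + Y / c ^ 2) ^ 2 ≤ (1 + Y / (u * u')) ^ 2 := by
        apply pow_le_pow_left₀ (by linarith)
        linarith
    _ ≤ (1 + Y / u ^ 2) * (1 + Y / u' ^ 2) := by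
        have e : (1 + Y / u ^ 2) * (1 + Y / u' ^ 2) - (1 + Y / (u * u')) ^ 2
            = Y * ((u - u') / (u * u')) ^ 2 := by
          field_simp
          ring
        have : 0 ≤ Y * ((u - u') / (u * u')) ^ 2 := by positivity
        linarith

theorem block (A L : ℕ) (Y : ℝ) (hY : 0 ≤ Y) (hL : 1 ≤ L) :
    (1 + Y / ((A : ℝ) + L / 2) ^ 2) ^ L ≤
      ∏ m ∈ Finset.Ioc A (A + L), (1 + Y / ((m : ℝ) - 1 / 2) ^ 2) := by
  have hL1 : (1 : ℝ) ≤ L := by exact_mod_cast hL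
  have hrefl : ∏ m ∈ Finset.Ioc A (A + L), (1 + Y / (((2 * A + L + 1 - m : ℕ) : ℝ) - 1 / 2) ^ 2)
      = ∏ m ∈ Finset.Ioc A (A + L), (1 + Y / ((m : ℝ) - 1 / 2) ^ 2) := by
    refine Finset.prod_nbij' (fun m => 2 * A + L + 1 - m) (fun m => 2 * A + L + 1 - m) ?_ ?_ ?_ ?_ ?_
    · intro m hm; rw [Finset.mem_Ioc] at *; omega
    · intro m hm; rw [Finset.mem_Ioc] at *; omega
    · intro m hm; rw [Finset.mem_Ioc] at hm; omega
    · intro m hm; rw [Finset.mem_Ioc] at hm; omega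
    · intro m _; rfl
  have h1 : ((1 + Y / ((A : ℝ) + L / 2) ^ 2) ^ L) ^ 2
      ≤ (∏ m ∈ Finset.Ioc A (A + L), (1 + Y / ((m : ℝ) - 1 / 2) ^ 2)) ^ 2 := by
    rw [sq (∏ m ∈ Finset.Ioc A (A + L), (1 + Y / ((m : ℝ) - 1 / 2) ^ 2))]
    nth_rewrite 2 [← hrefl]
    rw [← Finset.prod_mul_distrib, ← pow_mul, mul_comm L 2, pow_mul]
    have hcard : (Finset.Ioc A (A + L)).card = L := by rw [Nat.card_Ioc]; omega
    calc ((1 + Y / ((A : ℝ) + L / 2) ^ 2) ^ 2) ^ L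
        = ∏ _m ∈ Finset.Ioc A (A + L), (1 + Y / ((A : ℝ) + L / 2) ^ 2) ^ 2 := by
          rw [Finset.prod_const, hcard]
      _ ≤ _ := by
          refine Finset.prod_le_prod (fun m _ => by positivity) fun m hm => ?_
          rw [Finset.mem_Ioc] at hm
          have h2 : ((2 * A + L + 1 - m : ℕ) : ℝ) = 2 * A + L + 1 - m := by
            rw [Nat.cast_sub (by omega)]
            push_cast
            ring
          have h3 : (A : ℝ) + 1 ≤ m := by exact_mod_cast hm.1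
          have h4 : (m : ℝ) ≤ A + L := by exact_mod_cast hm.2
          have h5 : (0 : ℝ) ≤ A := Nat.cast_nonneg A
          rw [h2]
          exact pair_le _ _ _ Y (by linarith) (by linarith) (by ring) hY
  exact le_of_pow_le_pow_left₀ two_ne_zero
    (Finset.prod_nonneg fun m _ => by positivity) h1

/-- `∏_{a < m ≤ b} (1 + y²/(m-1/2)²)` -/
def PF1 (y : ℝ) (a b : ℕ) : ℝ := ∏ m ∈ Finset.Ioc a b, (1 + y ^ 2 / ((m : ℝ) - 1 / 2) ^ 2)

lemma one_le_PF1 (y : ℝ) (a b : ℕ) : 1 ≤ PF1 y a b := by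
  unfold PF1
  calc (1 : ℝ) = ∏ m ∈ Finset.Ioc a b, (1 : ℝ) := by simp
    _ ≤ _ := Finset.prod_le_prod (by intros; norm_num) (by
      intro m _
      have : 0 ≤ y ^ 2 / ((m : ℝ) - 1 / 2) ^ 2 := by positivity
      linarith)

lemma PF1_split (y : ℝ) {a b c : ℕ} (hab : a ≤ b) (hbc : b ≤ c) :
    PF1 y a b * PF1 y b c = PF1 y a c :=
  Finset.prod_Ioc_consecutive _ hab hbc

/-- admissible chains of blocks `(A, L, c)` -/
def good (n : ℕ) (b : ℕ) : ℕ → List (ℕ × ℕ × ℚ) → Prop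
  | a, [] => a ≤ b
  | a, x :: t => a ≤ x.1 ∧ 1 ≤ x.2.1 ∧ (0 : ℝ) < (x.2.2 : ℝ) ∧ (x.1 : ℝ) + x.2.1 / 2 ≤ (x.2.2 : ℝ) * n ∧
      good n b (x.1 + x.2.1) t

lemma good_le (n b : ℕ) (l : List (ℕ × ℕ × ℚ)) : ∀ a, good n b a l → a ≤ b := by
  induction l with
  | nil => intro a h; exact h
  | cons x t ih =>
    intro a h
    obtain ⟨h1, h2, h3, h4, h5⟩ := h
    have := ih _ h5
    omega

/-- lower bound of a chain -/
def cpr (g : ℚ → ℝ) (l : List (ℕ × ℕ × ℚ)) : ℝ := (l.map fun x => g x.2.2 ^ x.2.1).prod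

lemma cpr_nonneg (g : ℚ → ℝ) (hg : ∀ q, 0 ≤ g q) (l : List (ℕ × ℕ × ℚ)) : 0 ≤ cpr g l := by
  unfold cpr
  apply List.prod_nonneg
  intro z hz
  obtain ⟨w, _, rfl⟩ := List.mem_map.mp hz
  exact pow_nonneg (hg _) _

lemma chain (n : ℕ) (hn : 1 ≤ n) (y : ℝ) (g : ℚ → ℝ)
    (hg : ∀ q : ℚ, g q = 1 + (y / n) ^ 2 / (q : ℝ) ^ 2)
    (b : ℕ) (l : List (ℕ × ℕ × ℚ)) : ∀ a, good n b a l → cpr g l ≤ PF1 y a b := by
  have hg0 : ∀ q, 0 ≤ g q := fun q => by rw [hg]; positivity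
  induction l with
  | nil => intro a h; simpa [cpr] using one_le_PF1 y a b
  | cons x t ih =>
    intro a h
    obtain ⟨h1, h2, h3, h4, h5⟩ := h
    have h6 := good_le _ _ _ _ h5
    have hn' : (0 : ℝ) < n := by exact_mod_cast hn
    have hcons : cpr g (x :: t) = g x.2.2 ^ x.2.1 * cpr g t := by
      simp [cpr]
    rw [hcons, ← PF1_split y (h1.trans (Nat.le_add_right x.1 x.2.1)) h6,
      ← PF1_split y h1 (Nat.le_add_right _ _)]
    have hA : g x.2.2 ^ x.2.1 ≤ PF1 y x.1 (x.1 + x.2.1) := by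
      refine le_trans ?_ (block x.1 x.2.1 (y ^ 2) (sq_nonneg y) h2)
      apply pow_le_pow_left₀ (hg0 _)
      rw [hg]
      have h7 : (y / n) ^ 2 / (x.2.2 : ℝ) ^ 2 = y ^ 2 / ((x.2.2 : ℝ) * n) ^ 2 := by
        field_simp
      rw [h7]
      have h8 : (1 : ℝ) ≤ x.2.1 := by exact_mod_cast h2
      have h9 : (0 : ℝ) < (x.1 : ℝ) + x.2.1 / 2 := by positivity
      gcongr
    have hB := ih _ h5
    have hC : 0 ≤ cpr g t := cpr_nonneg g hg0 t
    have hD := one_le_PF1 y a x.1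
    have hE := one_le_PF1 y x.1 (x.1 + x.2.1)
    calc g x.2.2 ^ x.2.1 * cpr g t
        ≤ PF1 y x.1 (x.1 + x.2.1) * PF1 y (x.1 + x.2.1) b :=
          mul_le_mul hA hB hC (by linarith)
      _ ≤ PF1 y a x.1 * PF1 y x.1 (x.1 + x.2.1) * PF1 y (x.1 + x.2.1) b := by
          apply mul_le_mul_of_nonneg_right _ (by linarith [one_le_PF1 y (x.1 + x.2.1) b])
          nlinarith

/-- chain 1: `(n, 3n]` -/
def ch1 (n N : ℕ) : List (ℕ × ℕ × ℚ) :=
  [(n, 6 * N, 21/20), (n + 6 * N, 6 * N, 23/20), (n + 12 * N, 6 * N, 25/20),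
   (n + 18 * N, 6 * N, 27/20), (n + 24 * N, 6 * N, 29/20), (n + 30 * N, 6 * N, 31/20),
   (n + 36 * N, 6 * N, 33/20), (n + 42 * N, 6 * N, 35/20), (n + 48 * N, 6 * N, 37/20),
   (n + 54 * N, 6 * N, 39/20), (2 * n, 12 * N, 21/10), (2 * n + 12 * N, 12 * N, 23/10),
   (2 * n + 24 * N, 12 * N, 25/10), (2 * n + 36 * N, 12 * N, 27/10),
   (2 * n + 48 * N, 12 * N, 29/10)]

/-- chain 2: `(3n, 4n]` -/
def ch2 (n N : ℕ) : List (ℕ × ℕ × ℚ) :=
  [(3 * n, 12 * N, 31/10), (3 * n + 12 * N, 12 * N, 33/10), (3 * n + 24 * N, 12 * N, 35/10),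
   (3 * n + 36 * N, 12 * N, 37/10), (3 * n + 48 * N, 12 * N, 39/10)]

/-- chain 3: `(4n, 5n]` -/
def ch3 (n N : ℕ) : List (ℕ × ℕ × ℚ) :=
  [(4 * n, 12 * N, 41/10), (4 * n + 12 * N, 12 * N, 43/10), (4 * n + 24 * N, 12 * N, 45/10),
   (4 * n + 36 * N, 12 * N, 47/10), (4 * n + 48 * N, 12 * N, 49/10)]

/-- chain 4: `(5n, 11n]` -/
def ch4 (n N : ℕ) : List (ℕ × ℕ × ℚ) :=
  [(5 * n, 30 * N, 21/4), (5 * n + 30 * N, 30 * N, 23/4), (5 * n + 60 * N, 30 * N, 25/4),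
   (5 * n + 90 * N, 30 * N, 27/4), (7 * n, 60 * N, 15/2), (7 * n + 60 * N, 60 * N, 17/2),
   (7 * n + 120 * N, 60 * N, 19/2), (7 * n + 180 * N, 60 * N, 21/2)]

/-- chain 5: beyond `11n` -/
def ch5 (n N : ℕ) : List (ℕ × ℕ × ℚ) :=
  [(11 * n, 120 * N, 12), (13 * n, 180 * N, 29/2), (16 * n, 240 * N, 18), (20 * n, 480 * N, 24),
   (28 * n, 960 * N, 36), (44 * n, 1920 * N, 60), (76 * n, 3840 * N, 108),
   (140 * n, 9600 * N, 220), (300 * n, 100, 345)]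

lemma good1 {n N : ℕ} (hN : 1 ≤ N) (hn : 60 * N ≤ n) : good n (3 * n) n (ch1 n N) := by
  have h2 : (60 : ℝ) * N ≤ n := by exact_mod_cast hn
  simp only [ch1, good]
  repeat' apply And.intro
  all_goals first
    | omega
    | (norm_num; done)
    | (push_cast; linarith)

lemma good2 {n N : ℕ} (hN : 1 ≤ N) (hn : 60 * N ≤ n) : good n (4 * n) (3 * n) (ch2 n N) := by
  have h2 : (60 : ℝ) * N ≤ n := by exact_mod_cast hn
  simp only [ch2, good]
  repeat' apply And.intro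
  all_goals first
    | omega
    | (norm_num; done)
    | (push_cast; linarith)

lemma good3 {n N : ℕ} (hN : 1 ≤ N) (hn : 60 * N ≤ n) : good n (5 * n) (4 * n) (ch3 n N) := by
  have h2 : (60 : ℝ) * N ≤ n := by exact_mod_cast hn
  simp only [ch3, good]
  repeat' apply And.intro
  all_goals first
    | omega
    | (norm_num; done)
    | (push_cast; linarith)

lemma good4 {n N : ℕ} (hN : 1 ≤ N) (hn : 60 * N ≤ n) : good n (11 * n) (5 * n) (ch4 n N) := by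
  have h2 : (60 : ℝ) * N ≤ n := by exact_mod_cast hn
  simp only [ch4, good]
  repeat' apply And.intro
  all_goals first
    | omega
    | (norm_num; done)
    | (push_cast; linarith)

lemma good5 {n N : ℕ} (hN : 1 ≤ N) (hn : 60 * N ≤ n) :
    good n (300 * n + 100) (11 * n) (ch5 n N) := by
  have h1 : (1 : ℝ) ≤ N := by exact_mod_cast hN
  have h2 : (60 : ℝ) * N ≤ n := by exact_mod_cast hn
  simp only [ch5, good]
  repeat' apply And.intro
  all_goals first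
    | omega
    | (norm_num; done)
    | (push_cast; linarith)

lemma key_prod (g : ℚ → ℝ) (n N : ℕ) :
    cpr g (ch1 n N) ^ 2 * cpr g (ch2 n N) ^ 3 * cpr g (ch3 n N) ^ 5 * cpr g (ch4 n N) ^ 6 *
      cpr g (ch5 n N) ^ 4 =
    ((FXG.map fun x => g x.1 ^ x.2).prod ^ N) ^ 2 * g 345 ^ 400 := by
  simp only [cpr, ch1, ch2, ch3, ch4, ch5, FXG, List.map_cons, List.map_nil, List.prod_cons,
    List.prod_nil]
  ring

lemma NG_nonneg (n : ℕ) (y : ℝ) : 0 ≤ NG n y := by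
  unfold NG
  apply div_nonneg
  · apply mul_nonneg (by positivity)
    exact mul_nonneg (Finset.prod_nonneg fun m _ => by positivity)
      (Finset.prod_nonneg fun m _ => by positivity)
  · exact Finset.prod_nonneg fun m _ => by positivity

lemma g345_ge {n : ℕ} (hn : 1 ≤ n) (y : ℝ) :
    1 + y ^ 2 ≤ (345 * (n : ℝ)) ^ 2 * (1 + (y / n) ^ 2 / (345 : ℝ) ^ 2) := by
  have hn' : (1 : ℝ) ≤ n := by exact_mod_cast hn
  have h1 : (345 * (n : ℝ)) ^ 2 * (1 + (y / n) ^ 2 / (345 : ℝ) ^ 2) = (345 * (n : ℝ)) ^ 2 + y ^ 2 := by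
    field_simp
  rw [h1]
  nlinarith

lemma abs_aux (E F g Y s r : ℝ) (hE : 0 ≤ E) (hF : 0 ≤ F) (hY : 1 ≤ Y) (hs : 0 ≤ s)
    (hA : E * (F * g ^ 400) ≤ r ^ 2) (hB : Y ≤ s ^ 2 * g) :
    E * F * Y ^ 260 ≤ r ^ 2 * s ^ 800 := by
  have hY0 : 0 < Y := by linarith
  have hB' : Y ^ 400 ≤ (s ^ 2 * g) ^ 400 := pow_le_pow_left₀ hY0.le hB _
  have hT : 0 ≤ E * F := mul_nonneg hE hF
  calc E * F * Y ^ 260 ≤ E * F * Y ^ 400 :=
        mul_le_mul_of_nonneg_left (pow_le_pow_right₀ hY (by norm_num)) hT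
    _ ≤ E * F * (s ^ 2 * g) ^ 400 := mul_le_mul_of_nonneg_left hB' hT
    _ = s ^ 800 * (E * (F * g ^ 400)) := by
        have e1 : (s ^ 2 * g) ^ 400 = s ^ 800 * g ^ 400 := by rw [mul_pow, ← pow_mul]
        rw [e1]
        generalize s ^ 800 = S
        generalize g ^ 400 = G
        ring
    _ ≤ s ^ 800 * r ^ 2 := mul_le_mul_of_nonneg_left hA (pow_nonneg hs _)
    _ = _ := mul_comm _ _

/-- `StG1` from `StG1r` and `StG1z` -/
theorem G1_of (hr : StG1r) (hz : StG1z) : StG1 := by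
  obtain ⟨C, K, hC, h0⟩ := hz
  refine ⟨345 ^ 400 * C, K + 400, by positivity, ?_⟩
  intro n hn60 y
  obtain ⟨N, hNdef⟩ : ∃ N : ℕ, n / 60 = N := ⟨_, rfl⟩
  rw [hNdef]
  have hN : 1 ≤ N := by omega
  have hnN : 60 * N ≤ n := by omega
  have hn : 1 ≤ n := by omega
  have hn' : (1 : ℝ) ≤ n := by exact_mod_cast hn
  obtain ⟨g, hg⟩ : ∃ g : ℚ → ℝ, ∀ q : ℚ, g q = 1 + (y / n) ^ 2 / (q : ℝ) ^ 2 := ⟨_, fun _ => rfl⟩
  have hg0 : ∀ q, 0 ≤ g q := fun q => by rw [hg]; positivity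
  have hR := hr hn y (300 * n + 100) (by omega)
  simp only [Finset.prod_pow] at hR
  change (NG n y * Real.exp (-(2 * Real.pi * |y|))) ^ 2 *
      (PF1 y n (3 * n) ^ 2 * PF1 y (3 * n) (4 * n) ^ 3 * PF1 y (4 * n) (5 * n) ^ 5 *
       PF1 y (5 * n) (11 * n) ^ 6 * PF1 y (11 * n) (300 * n + 100) ^ 4) ≤ NG n 0 ^ 2 at hR
  have k1 := chain n hn y g hg _ _ _ (good1 hN hnN)
  have k2 := chain n hn y g hg _ _ _ (good2 hN hnN)
  have k3 := chain n hn y g hg _ _ _ (good3 hN hnN)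
  have k4 := chain n hn y g hg _ _ _ (good4 hN hnN)
  have k5 := chain n hn y g hg _ _ _ (good5 hN hnN)
  have n1 := cpr_nonneg g hg0 (ch1 n N)
  have n2 := cpr_nonneg g hg0 (ch2 n N)
  have n3 := cpr_nonneg g hg0 (ch3 n N)
  have n4 := cpr_nonneg g hg0 (ch4 n N)
  have n5 := cpr_nonneg g hg0 (ch5 n N)
  have p1 := n1.trans k1
  have p2 := n2.trans k2
  have p3 := n3.trans k3
  have p4 := n4.trans k4
  have p5 := n5.trans k5
  have hS : cpr g (ch1 n N) ^ 2 * cpr g (ch2 n N) ^ 3 * cpr g (ch3 n N) ^ 5 * cpr g (ch4 n N) ^ 6 *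
      cpr g (ch5 n N) ^ 4 ≤
      PF1 y n (3 * n) ^ 2 * PF1 y (3 * n) (4 * n) ^ 3 * PF1 y (4 * n) (5 * n) ^ 5 *
       PF1 y (5 * n) (11 * n) ^ 6 * PF1 y (11 * n) (300 * n + 100) ^ 4 := by
    gcongr
  rw [key_prod] at hS
  have hF : FXpG ((y / n) ^ 2) = (FXG.map fun x => g x.1 ^ x.2).prod := by
    simp only [FXpG, hg]
  rw [← hF] at hS
  have hF0 : 0 ≤ FXpG ((y / n) ^ 2) := by
    rw [hF]
    apply List.prod_nonneg
    intro z hz
    obtain ⟨w, _, rfl⟩ := List.mem_map.mp hz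
    exact pow_nonneg (hg0 _) _
  have hg345 : 1 + y ^ 2 ≤ (345 * (n : ℝ)) ^ 2 * g 345 := by
    rw [hg]
    have := g345_ge hn y
    push_cast
    exact this
  have hN0 : 0 ≤ NG n y := NG_nonneg n y
  have hR0 : 0 ≤ NG n 0 := NG_nonneg n 0
  have h1' := h0 n hn
  have hY1 : 1 ≤ 1 + y ^ 2 := le_add_of_nonneg_right (sq_nonneg y)
  -- main inequality, squared
  have hmain : (NG n y * Real.exp (-(2 * Real.pi * |y|))) ^ 2 * (FXpG ((y / n) ^ 2) ^ N) ^ 2 *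
      (1 + y ^ 2) ^ 260 ≤ NG n 0 ^ 2 * (345 * (n : ℝ)) ^ 800 := by
    have hA : (NG n y * Real.exp (-(2 * Real.pi * |y|))) ^ 2 *
        ((FXpG ((y / n) ^ 2) ^ N) ^ 2 * g 345 ^ 400) ≤ NG n 0 ^ 2 :=
      (mul_le_mul_of_nonneg_left hS (sq_nonneg _)).trans hR
    exact abs_aux _ _ _ _ _ _ (by positivity) (by positivity) hY1 (by positivity) hA hg345
  have hsq : (NG n y * Real.exp (-(2 * Real.pi * |y|)) * (1 + y ^ 2) ^ 130 *
      FXpG ((y / n) ^ 2) ^ N) ^ 2 ≤ ((345 * (n : ℝ)) ^ 400 * NG n 0) ^ 2 := by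
    generalize FXpG ((y / n) ^ 2) ^ N = F at hmain ⊢
    generalize Real.exp (-(2 * Real.pi * |y|)) = e at hmain ⊢
    generalize 1 + y ^ 2 = Y at hmain hY1 ⊢
    generalize NG n y = r at hmain ⊢
    generalize NG n 0 = r0 at hmain ⊢
    generalize 345 * (n : ℝ) = s at hmain ⊢
    have e1 : (r * e * Y ^ 130 * F) ^ 2 = (r * e) ^ 2 * F ^ 2 * Y ^ 260 := by
      rw [mul_pow, mul_pow _ (Y ^ 130), ← pow_mul]
      ring
    have e2 : (s ^ 400 * r0) ^ 2 = r0 ^ 2 * s ^ 800 := by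
      rw [mul_pow, ← pow_mul, mul_comm]
    rw [e1, e2]
    exact hmain
  have hfin := (le_abs_self _).trans (abs_le_of_sq_le_sq hsq (by positivity))
  calc NG n y * Real.exp (-(2 * Real.pi * |y|)) * (1 + y ^ 2) ^ 130 * FXpG ((y / n) ^ 2) ^ N
      ≤ (345 * (n : ℝ)) ^ 400 * NG n 0 := hfin
    _ ≤ (345 * (n : ℝ)) ^ 400 * (C * (n : ℝ) ^ K * Real.exp (n * PhiG)) :=
        mul_le_mul_of_nonneg_left h1' (by positivity)
    _ = 345 ^ 400 * C * (n : ℝ) ^ (K + 400) * Real.exp (n * PhiG) := by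
        rw [mul_pow, pow_add]
        generalize (345 : ℝ) ^ 400 = a
        generalize (n : ℝ) ^ 400 = b
        ring

/-- the same -/
theorem G1m (hr : StG1r) (hz : StG1z) : StG1 := G1_of hr hz

end

end Pool.Agent.W790.Z3
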